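import Pool.Agent.Y55.Col.Pow

/-!
# Powers of `t ^ (n - 1)` generic forms in `n` variables have the least possible Hilbert series

Let `n ≥ 2`, `t ≥ 2`, `r = t ^ (n - 1)` and `d, k ≥ 1`. For `r` generic forms `g_i` of degree `d` in
`n` variables over a field of characteristic zero the Hilbert function of the quotient by the ideal
generated by the powers `g_i ^ k` is the least possible one for `r` forms of degree `d k`, in **all**
degrees,

* if `d k ≥ (n - 2) * t ^ n`;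
* if `t = 2` and `n ≤ 6` or `n = 8`, if `t = 3` and `n ≤ 5`, and if `t ≤ 5` and `n ≤ 4`;
* in the cases `Case n t (d k)`.
-/

set_option autoImplicit false

namespace Pool.Agent.Results.MP_e0014e_ag.PerfectPowers

open MvPolynomial

/-- The Hilbert function of the quotient of `K[x_1, …, x_n]` by the ideal generated by the forms
`f i`, in degree `j`. -/
noncomputable def hilb {K : Type} [Field K] {n r : ℕ} (f : Fin r → MvPolynomial (Fin n) K)
    (j : ℕ) : ℤ :=
  (Module.finrank K (MvPolynomial.homogeneousSubmodule (Fin n) K j) : ℤ) -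
    (Module.finrank K
      ↥(Submodule.restrictScalars K (Ideal.span (Set.range f)) ⊓
        MvPolynomial.homogeneousSubmodule (Fin n) K j) : ℤ)

/-- For all `m ≥ 1` and `c ≥ 0` with `D + m = t m + c + 1` and `2 c + n < (n - 2) t`: `m` is at least
`(n - 2) * t ^ (n - 1)`, or `binom (t + c + n - 1) (n - 1) ≤ t ^ (n - 1)`. -/
def Case (n t D : ℕ) : Prop :=
  ∀ m c : ℕ, 1 ≤ m → D + m = t * m + c + 1 → 2 * c + n < (n - 2) * t →
    (n - 2) * t ^ (n - 1) ≤ m ∨ (t + c + (n - 1)).choose (n - 1) ≤ t ^ (n - 1)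

/-- The powers of `t ^ (n - 1)` generic forms of degree `d` in `n` variables. -/
theorem result (n t : ℕ) (hn : 2 ≤ n) (ht : 2 ≤ t) (K : Type) [Field K] [CharZero K] (d k : ℕ)
    (hd : 1 ≤ d) (hk : 1 ≤ k)
    (h : (n - 2) * t ^ n ≤ d * k ∨
      (t = 2 ∧ (n ≤ 6 ∨ n = 8)) ∨ (t = 3 ∧ n ≤ 5) ∨ (t ≤ 5 ∧ n ≤ 4) ∨ Case n t (d * k)) :
    ∃ P : MvPolynomial (Σ _ : Fin (t ^ (n - 1)), {m : Fin n →₀ ℕ // Finsupp.degree m = d}) K,
      P ≠ 0 ∧
      ∀ g : Fin (t ^ (n - 1)) → MvPolynomial (Fin n) K, (∀ i, (g i).IsHomogeneous d) →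
        MvPolynomial.eval
            (fun q : (Σ _ : Fin (t ^ (n - 1)), {m : Fin n →₀ ℕ // Finsupp.degree m = d}) =>
              (g q.1).coeff q.2.1) P ≠ 0 →
        ∀ f : Fin (t ^ (n - 1)) → MvPolynomial (Fin n) K, (∀ i, (f i).IsHomogeneous (d * k)) →
          ∀ j : ℕ, hilb (fun i => g i ^ k) j ≤ hilb f j := by
  have hc : Pool.Agent.Y55.Col.CaseP n t (d * k) := Pool.Agent.Y55.Col.caseP_of hn ht h
  obtain ⟨l, rfl⟩ : ∃ l, n = l + 2 := ⟨n - 2, by omega⟩
  have e1 : l + 2 - 1 = l + 1 := by omega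
  rw [e1]
  have hD : 1 ≤ d * k := Nat.mul_pos hd hk
  obtain ⟨P, hP, hP2⟩ := Pool.Agent.Y55.Col.ranks l t (d * k) ht hD hc K
    (Pool.Agent.Y55.Col.phiF (l + 2) (t ^ (l + 1)) d k)
    (Pool.Agent.Y55.Col.pows_phiF d k)
  refine ⟨P, hP, fun g hg hgP f hf j => ?_⟩
  have h1 := hP2 _ (fun i => g i ^ k) (fun i => (hg i).pow k)
    (fun s => Pool.Agent.Y55.Col.aeval_phiF g hg s) hgP
  have h2 := Pool.Agent.Y55.Col.all_degrees_min ht hD _ h1 j f hf
  unfold Pool.Agent.TH176.FB.ik at h2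
  unfold hilb
  omega

end Pool.Agent.Results.MP_e0014e_ag.PerfectPowers
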